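import Pool.Agent.Lib.MP_7ab245_nt.Solv.SX.X12
import Pool.Agent.Lib.MP_7ab245_nt.Solv.SX.X13

/-! Group theory for the theorem on primitive sections of the Galois group. -/

set_option autoImplicit false

namespace Pool.Agent.Lib.MP_7ab245_nt.Solv.PS

open Pool.Agent.Lib.MP_7ab245_nt.Solv.SX

/-- a minimal overgroup -/
theorem exists_coatom {G : Type*} [Group G] [Finite G] (H : Subgroup G) (hH : H ≠ ⊤) :
    ∃ S : Subgroup G, H ≤ S ∧ IsCoatom (H.subgroupOf S) := by
  obtain ⟨S, hS⟩ := exists_covBy_of_wellFoundedLT (α := Subgroup G) (a := H)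
    (by rwa [isMax_iff_eq_top])
  refine ⟨S, hS.le, ?_⟩
  constructor
  · intro h
    rw [Subgroup.subgroupOf_eq_top] at h
    exact absurd (lt_of_lt_of_le hS.lt h) (lt_irrefl H)
  · intro K hK
    have h1 : H ≤ K.map S.subtype := by
      have h2 : (H.subgroupOf S).map S.subtype ≤ K.map S.subtype := Subgroup.map_mono hK.le
      rwa [Subgroup.subgroupOf_map_subtype, inf_eq_left.mpr hS.le] at h2
    have h2 : H < K.map S.subtype := by
      refine lt_of_le_of_ne h1 ?_
      intro h3
      apply hK.ne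
      rw [h3]
      ext x
      rw [Subgroup.mem_subgroupOf, Subgroup.mem_map]
      constructor
      · rintro ⟨y, hy, hyx⟩
        have : y = x := Subtype.ext hyx
        rwa [← this]
      · intro hx
        exact ⟨x, hx, rfl⟩
    have h3 : K.map S.subtype ≤ S := by
      intro y hy
      obtain ⟨z, -, rfl⟩ := Subgroup.mem_map.mp hy
      exact z.2
    have h4 : K.map S.subtype = S := by
      by_contra hne
      exact hS.2 h2 (lt_of_le_of_ne h3 hne)
    rw [eq_top_iff]
    intro x _
    have h5 : (x : G) ∈ K.map S.subtype := by rw [h4]; exact x.2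
    obtain ⟨z, hz, hzx⟩ := Subgroup.mem_map.mp h5
    have : z = x := Subtype.ext hzx
    rwa [← this]

section act
variable {G W : Type*} [Group G] [Finite G] [AddCommGroup W] [Module ℚ W]
  (ρ : Representation ℚ G W) (w : W)

omit [Finite G] in
theorem mem_H1 {g : G} : g ∈ H1 ρ w ↔ ρ g w = w ∨ ρ g w = -w := Iff.rfl

theorem pair_indep (hw : w ≠ 0) (g : G) (hg : g ∉ H1 ρ w) :
    LinearIndependent ℚ (fun i : Fin 2 => ρ ((![1, g] : Fin 2 → G) i) w) := by
  rw [mem_H1] at hg
  push Not at hg
  have e1 : (fun i : Fin 2 => ρ ((![1, g] : Fin 2 → G) i) w) = ![w, ρ g w] := by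
    funext i
    fin_cases i
    · simp
    · simp
  rw [e1, LinearIndependent.pair_iff' hw]
  intro c hc
  have h1 : ∀ i : ℕ, ρ (g ^ i) w = c ^ i • w := by
    intro i
    induction i with
    | zero => simp
    | succ i ihi =>
      rw [pow_succ, map_mul, Module.End.mul_apply, ← hc, map_smul, ihi, smul_smul, pow_succ,
        mul_comm]
  have h2 := h1 (orderOf g)
  rw [pow_orderOf_eq_one, map_one, Module.End.one_apply] at h2
  have h3 : (c ^ orderOf g - 1) • w = 0 := by
    rw [sub_smul, one_smul, ← h2, sub_self]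
  rcases smul_eq_zero.1 h3 with h4 | h4
  · rcases (pow_eq_one_iff_of_ne_zero (orderOf_pos g).ne').1 (sub_eq_zero.1 h4) with h5 | ⟨h5, _⟩
    · rw [h5, one_smul] at hc
      exact hg.1 hc.symm
    · rw [h5, neg_smul, one_smul] at hc
      exact hg.2 hc.symm
  · exact hw h4

omit [Finite G] in
theorem mem_H1_of_eq {a b : G} (h : ρ a w = ρ b w) : a⁻¹ * b ∈ H1 ρ w := by
  left
  rw [map_mul, Module.End.mul_apply, ← h, ← Module.End.mul_apply, ← map_mul, inv_mul_cancel,
    map_one, Module.End.one_apply]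

theorem index_H1_le : (H1 ρ w).index ≤ osz ρ w := by
  rw [Subgroup.index, osz]
  have hfin : Finite (Set.range fun x : G => ρ x w) := Set.finite_range _
  refine Nat.card_le_card_of_injective
    (fun q : G ⧸ H1 ρ w => (⟨ρ q.out w, q.out, rfl⟩ : Set.range fun x : G => ρ x w)) ?_
  intro q q' h
  have h1 : ρ q.out w = ρ q'.out w := congrArg Subtype.val h
  have h2 := mem_H1_of_eq ρ w h1
  have h3 : (q.out : G ⧸ H1 ρ w) = (q'.out : G ⧸ H1 ρ w) := QuotientGroup.eq.mpr h2
  rwa [QuotientGroup.out_eq', QuotientGroup.out_eq'] at h3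

theorem H1_ne_top (h : 2 < osz ρ w) : H1 ρ w ≠ ⊤ := by
  intro htop
  have h1 : (Set.range fun x : G => ρ x w) ⊆ {w, -w} := by
    rintro _ ⟨x, rfl⟩
    have hx : x ∈ H1 ρ w := by rw [htop]; exact Subgroup.mem_top x
    rcases hx with hx | hx
    · left; exact hx
    · right; exact hx
  have h2 : osz ρ w ≤ Nat.card ({w, -w} : Set W) :=
    Nat.card_mono (Set.toFinite _) h1
  have h3 : Nat.card ({w, -w} : Set W) ≤ 2 := by
    rw [Nat.card_coe_set_eq]
    have h4 := Set.ncard_insert_le w ({-w} : Set W)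
    rw [Set.ncard_singleton] at h4
    exact h4
  omega

/-- number of tuples, if the lines are fixed by `C` -/
theorem tsz_le_index {r : ℕ} (u : Fin r → G) (C : Subgroup G)
    (hC : ∀ c ∈ C, ∀ i, ρ (c * u i) w = ρ (u i) w ∨ ρ (c * u i) w = -ρ (u i) w) :
    tsz ρ w u ≤ 2 ^ r * C.index := by
  classical
  let Φ : (G ⧸ C) × (Fin r → Bool) → (Fin r → W) := fun q i =>
    (if q.2 i then (1 : ℚ) else -1) • ρ (q.1.out * u i) w
  have hsub : (Set.range fun x : G => fun i => ρ (x * u i) w) ⊆ Set.range Φ := by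
    rintro _ ⟨x, rfl⟩
    set q : G ⧸ C := (x : G ⧸ C) with hq
    have hc : q.out⁻¹ * x ∈ C := by
      rw [← QuotientGroup.eq, QuotientGroup.out_eq']
    have hex : ∀ i, ∃ b : Bool, ρ (x * u i) w = (if b then (1 : ℚ) else -1) •
        ρ (q.out * u i) w := by
      intro i
      have h1 : x * u i = q.out * ((q.out⁻¹ * x) * u i) := by group
      rcases hC _ hc i with h2 | h2
      · refine ⟨true, ?_⟩
        rw [h1, map_mul, Module.End.mul_apply, h2, if_pos rfl, one_smul, ← Module.End.mul_apply,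
          ← map_mul]
      · refine ⟨false, ?_⟩
        rw [h1, map_mul, Module.End.mul_apply, h2, map_neg, ← Module.End.mul_apply,
          ← map_mul]
        simp
    choose b hb using hex
    refine ⟨(q, b), ?_⟩
    funext i
    exact (hb i).symm
  have h1 : tsz ρ w u ≤ Nat.card ((G ⧸ C) × (Fin r → Bool)) :=
    (Nat.card_mono (Set.finite_range Φ) hsub).trans (Finite.card_range_le Φ)
  refine h1.trans_eq ?_
  rw [Nat.card_prod, ← Subgroup.index, Nat.card_eq_fintype_card (α := Fin r → Bool),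
    Fintype.card_fun, Fintype.card_bool, Fintype.card_fin, mul_comm]

/-- tuples with all `u i` in `S` -/
theorem tsz_le_core {r : ℕ} (S : Subgroup G) (u : Fin r → G) (hu : ∀ i, u i ∈ S) :
    tsz ρ w u ≤ 2 ^ r * (S.index * ((H1 ρ w).subgroupOf S).normalCore.index) := by
  set C : Subgroup G := (((H1 ρ w).subgroupOf S).normalCore).map S.subtype with hCdef
  have hidx : C.index = S.index * ((H1 ρ w).subgroupOf S).normalCore.index := by
    rw [hCdef, Subgroup.index_map_subtype, mul_comm]
  rw [← hidx]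
  apply tsz_le_index
  intro c hc i
  obtain ⟨d, hd, rfl⟩ := Subgroup.mem_map.mp hc
  have h1 : (⟨u i, hu i⟩ : S)⁻¹ * d * (⟨u i, hu i⟩ : S)⁻¹⁻¹ ∈
      ((H1 ρ w).subgroupOf S).normalCore :=
    (Subgroup.normalCore_normal _).conj_mem d hd _
  have h2 := Subgroup.normalCore_le _ h1
  rw [Subgroup.mem_subgroupOf] at h2
  have h3 : S.subtype d * u i = u i * ((u i)⁻¹ * (d : G) * u i) := by
    simp [mul_assoc]
  have h4 : (u i)⁻¹ * (d : G) * u i ∈ H1 ρ w := by
    simpa using h2
  rw [h3, map_mul, Module.End.mul_apply]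
  rcases h4 with h5 | h5
  · left; rw [h5]
  · right; rw [h5, map_neg]

/-- the number of lines of the orbit of `S` is bounded in terms of the dimension of their span -/
theorem index_le_span (S : Subgroup G) :
    ((H1 ρ w).subgroupOf S).index ≤
      3 ^ (Module.finrank ℚ (Submodule.span ℚ ((fun u => ρ u w) '' (S : Set G)))) ^ 2 := by
  set U : Submodule ℚ W := Submodule.span ℚ ((fun u => ρ u w) '' (S : Set G)) with hU
  have hfin : FiniteDimensional ℚ U := by
    have : Finite ((fun u => ρ u w) '' (S : Set G)) := (Set.toFinite _)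
    exact FiniteDimensional.span_of_finite ℚ (Set.toFinite _)
  have hst : ∀ s : S, ∀ v ∈ U, ρ (s : G) v ∈ U := by
    intro s v hv
    have h1 : U ≤ U.comap (ρ (s : G)) := by
      rw [hU, Submodule.span_le]
      rintro _ ⟨t, ht, rfl⟩
      apply Submodule.subset_span
      refine ⟨s * t, S.mul_mem s.2 ht, ?_⟩
      simp [map_mul]
    exact h1 hv
  let σ : Representation ℚ S U :=
    { toFun := fun s => (ρ (s : G)).restrict (hst s)
      map_one' := by
        ext v
        simp
      map_mul' := by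
        intro a b
        ext v
        simp [map_mul] }
  have h1 := minkowski σ
  refine le_trans ?_ h1
  have hwU : w ∈ U := by
    apply Submodule.subset_span
    exact ⟨1, S.one_mem, by simp⟩
  rw [Subgroup.index]
  have hfin' : Finite (Set.range fun g => σ g) := Set.finite_range _
  refine Nat.card_le_card_of_injective
    (fun q : S ⧸ (H1 ρ w).subgroupOf S => (⟨σ q.out, q.out, rfl⟩ : Set.range fun g => σ g)) ?_
  intro q q' h
  have h2 : σ q.out = σ q'.out := congrArg Subtype.val h
  have h3 : ρ (q.out : G) w = ρ (q'.out : G) w := by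
    have := congrArg (fun T : U →ₗ[ℚ] U => ((T ⟨w, hwU⟩ : U) : W)) h2
    exact this
  have h4 := mem_H1_of_eq ρ w h3
  have h5 : (q.out : S ⧸ (H1 ρ w).subgroupOf S) = (q'.out : S ⧸ (H1 ρ w).subgroupOf S) := by
    rw [QuotientGroup.eq, Subgroup.mem_subgroupOf]
    exact h4
  rwa [QuotientGroup.out_eq', QuotientGroup.out_eq'] at h5

end act

/-- the group theory -/
theorem prim (R : ℕ) (hR : 1 ≤ R) {G W : Type*} [Group G] [Finite G] [AddCommGroup W]
    [Module ℚ W] (ρ : Representation ℚ G W) (w : W) (hw : w ≠ 0) (h2 : 2 < osz ρ w)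
    (hB2 : ∀ u : Fin 2 → G, LinearIndependent ℚ (fun i => ρ (u i) w) →
      4 * (3 ^ R ^ 2) ^ R * osz ρ w ^ (2 - 1) < tsz ρ w u)
    (hBr : ∀ u : Fin (R + 1) → G, LinearIndependent ℚ (fun i => ρ (u i) w) →
      2 ^ (R + 1) * osz ρ w ^ (R + 1 - 1) < tsz ρ w u) :
    ∃ (S : Subgroup G) (H : Subgroup S), IsCoatom H ∧ H.index ^ R < H.normalCore.index := by
  obtain ⟨S, hHS, hco⟩ := exists_coatom (H1 ρ w) (H1_ne_top ρ w h2)
  refine ⟨S, (H1 ρ w).subgroupOf S, hco, ?_⟩
  by_contra hcon
  push Not at hcon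
  set d := ((H1 ρ w).subgroupOf S).index with hd
  have hm : S.index * d = (H1 ρ w).index := by
    have := Subgroup.relIndex_mul_index hHS
    rw [Subgroup.relIndex] at this
    rw [hd, ← this, mul_comm]
  have hmn := index_H1_le ρ w
  have hd0 : 0 < d := Nat.pos_of_ne_zero Subgroup.index_ne_zero_of_finite
  have hSm : S.index ≤ osz ρ w := by
    refine le_trans ?_ hmn
    rw [← hm]
    exact Nat.le_mul_of_pos_right _ hd0
  by_cases hdD : d ≤ 3 ^ R ^ 2
  · -- small degree
    obtain ⟨s, hs⟩ : ∃ s : S, s ∉ (H1 ρ w).subgroupOf S := by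
      by_contra hc
      push Not at hc
      exact hco.1 (eq_top_iff.mpr fun x _ => hc x)
    have hs1 : (s : G) ∉ H1 ρ w := by
      intro h
      exact hs (Subgroup.mem_subgroupOf.mpr h)
    have h3 := hB2 ![1, (s : G)] (pair_indep ρ w hw s hs1)
    have h4 := tsz_le_core ρ w S ![1, (s : G)] (by
      intro i
      fin_cases i
      · exact S.one_mem
      · exact s.2)
    have h5 : 2 ^ 2 * (S.index * ((H1 ρ w).subgroupOf S).normalCore.index) ≤
        4 * (3 ^ R ^ 2) ^ R * osz ρ w ^ (2 - 1) := by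
      have h6 : ((H1 ρ w).subgroupOf S).normalCore.index ≤ (3 ^ R ^ 2) ^ R :=
        hcon.trans (Nat.pow_le_pow_left hdD R)
      calc 2 ^ 2 * (S.index * ((H1 ρ w).subgroupOf S).normalCore.index)
          ≤ 2 ^ 2 * (osz ρ w * (3 ^ R ^ 2) ^ R) := by gcongr
        _ = 4 * (3 ^ R ^ 2) ^ R * osz ρ w ^ (2 - 1) := by
          norm_num
          ring
    omega
  · -- large degree
    push Not at hdD
    have h3 := index_le_span ρ w S
    rw [← hd] at h3
    set ρd := Module.finrank ℚ (Submodule.span ℚ ((fun u => ρ u w) '' (S : Set G))) with hρd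
    have h4 : R + 1 ≤ ρd := by
      by_contra hc
      push Not at hc
      have h5 : ρd ^ 2 ≤ R ^ 2 := Nat.pow_le_pow_left (by omega) 2
      have h6 : 3 ^ ρd ^ 2 ≤ 3 ^ R ^ 2 := Nat.pow_le_pow_right (by norm_num) h5
      omega
    have hfin : FiniteDimensional ℚ (Submodule.span ℚ ((fun u => ρ u w) '' (S : Set G))) :=
      FiniteDimensional.span_of_finite ℚ (Set.toFinite _)
    obtain ⟨u, hu, hli⟩ := exists_indep (fun u => ρ u w) (S : Set G) (R + 1) hfin h4
    have h5 := hBr u hli
    have h6 := tsz_le_core ρ w S u hu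
    have h7 : 2 ^ (R + 1) * (S.index * ((H1 ρ w).subgroupOf S).normalCore.index) ≤
        2 ^ (R + 1) * osz ρ w ^ (R + 1 - 1) := by
      rw [Nat.add_sub_cancel]
      gcongr
      have h8 : S.index ≤ S.index ^ R := Nat.le_self_pow (by omega) _
      calc S.index * ((H1 ρ w).subgroupOf S).normalCore.index ≤ S.index ^ R * d ^ R := by
            gcongr
        _ = (S.index * d) ^ R := by rw [mul_pow]
        _ ≤ osz ρ w ^ R := by
            rw [hm]
            gcongr
    omega

end Pool.Agent.Lib.MP_7ab245_nt.Solv.PS
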