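import Pool.Agent.Lib.MP_7ab245_nt.Solv.PS.Grp
import Pool.Agent.Lib.MP_7ab245_nt.Solv.F.GroupB
import Pool.Agent.Lib.MP_7ab245_nt.Solv.F.SmallDeg
import Pool.Agent.Lib.MP_7ab245_nt.Solv.F.Inst

/-! Small Mahler measure forces a large primitive section of the Galois group. -/

set_option autoImplicit false

open Polynomial

namespace Pool.Agent.Lib.MP_7ab245_nt.Solv.PS

open Pool.Agent.Lib.MP_7ab245_nt.Solv

/-- the case of large degree -/
theorem prim_core (R : ℕ) (hR : 1 ≤ R) : ∃ n₀ : ℕ, ∀ (Ω : Type) [Field Ω] [NumberField Ω]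
    [IsGalois ℚ Ω] (B : ℝ) (g : ℤ[X]), MinPoly Ω B g → B < 2 → n₀ ≤ g.natDegree →
    ∃ (S : Subgroup (Ω ≃ₐ[ℚ] Ω)) (H : Subgroup S), IsCoatom H ∧
      H.index ^ R < H.normalCore.index := by
  obtain ⟨n2, h2⟩ := groupB 2 (4 * (3 ^ R ^ 2) ^ R) (by norm_num)
  obtain ⟨nr, hr⟩ := groupB (R + 1) (2 ^ (R + 1)) (by omega)
  refine ⟨max (max n2 nr) 3, ?_⟩
  intro Ω _ _ _ B g hg hB hn
  have hn2 : n2 ≤ g.natDegree := ((le_max_left _ _).trans (le_max_left _ _)).trans hn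
  have hnr : nr ≤ g.natDegree := ((le_max_right _ _).trans (le_max_left _ _)).trans hn
  have hn3 : 3 ≤ g.natDegree := (le_max_right _ _).trans hn
  obtain ⟨x, hx⟩ : ∃ x : Ω, aeval x g = 0 := by
    have hd : (g.map (algebraMap ℤ Ω)).degree ≠ 0 := by
      rw [hg.monic.degree_map]
      intro h0
      have h5 : g.natDegree = 0 := natDegree_eq_of_degree_eq_some h0
      omega
    obtain ⟨x, hx⟩ := hg.splits.exists_eval_eq_zero hd
    exact ⟨x, by rwa [eval_map_algebraMap] at hx⟩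
  obtain ⟨ι⟩ : Nonempty (Ω →+* ℂ) := inferInstance
  have hw : lg ι x ≠ 0 := lg_root_ne_zero ι hg hB x hx
  have hosz : SX.osz (rep (Ω ≃ₐ[ℚ] Ω)) (lg ι x) = g.natDegree := card_orbit_lg ι hg hB x hx
  refine prim R hR (rep (Ω ≃ₐ[ℚ] Ω)) (lg ι x) hw (by rw [hosz]; omega) ?_ ?_
  · intro u hu
    rw [hosz]
    exact h2 Ω ι B g hg hB hn2 x hx u hu
  · intro u hu
    rw [hosz]
    exact hr Ω ι B g hg hB hnr x hx u hu

theorem prim_final (R : ℕ) : ∃ c : ℝ, 0 < c ∧ ∀ f : ℤ[X], 1 < M f → M f < 1 + c →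
    ∃ (S : Subgroup (rat f).Gal) (H : Subgroup S), IsCoatom H ∧
      H.index ^ R < H.normalCore.index := by
  obtain ⟨n₀, hcore⟩ := prim_core (max R 1) (le_max_right _ _)
  obtain ⟨c₁, hc₁, hsmall⟩ := small_degree n₀
  refine ⟨min c₁ (1 / 2), lt_min hc₁ (by norm_num), ?_⟩
  intro f hf1 hf2
  have hlt2 : M f < 2 := by
    have := min_le_right c₁ (1 / 2 : ℝ)
    linarith
  have hlt1 : M f < 1 + c₁ := by
    have := min_le_left c₁ (1 / 2 : ℝ)
    linarith
  obtain ⟨g, hg⟩ := exists_minPoly (rat f).SplittingField f hf1 hlt2 (splits_self f)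
  have hgn : n₀ ≤ g.natDegree := by
    by_contra hcon
    have := hsmall g (by omega) hg.one_lt
    have := hg.le
    linarith
  obtain ⟨S, H, hH, hlt⟩ := hcore (rat f).SplittingField (M f) g hg hlt2 hgn
  refine ⟨S, H, hH, lt_of_le_of_lt ?_ hlt⟩
  apply Nat.pow_le_pow_right _ (le_max_left _ _)
  have : Finite (rat f).Gal := inferInstance
  have : Finite S := Subtype.finite
  exact Nat.pos_of_ne_zero Subgroup.index_ne_zero_of_finite

end Pool.Agent.Lib.MP_7ab245_nt.Solv.PS
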